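import Mathlib

set_option autoImplicit false

namespace Pool.Agent.Results.MP_77bbd4_lc.Undetermined

open Set Cardinal

universe u

/-- open dense subsets of a poset -/
def OpenDense {P : Type u} [PartialOrder P] (D : Set P) : Prop :=
  IsLowerSet D ∧ ∀ p, ∃ q ∈ D, q ≤ p

/-- strongly `<κ`-distributive; `κ.ord.ToType` is the well-order of the ordinals below `κ` -/
def StronglyDistrib (κ : Cardinal.{u}) (P : Type u) [PartialOrder P] : Prop :=
  ∀ D : κ.ord.ToType → Set P, (∀ α, OpenDense (D α)) → ∀ p : P,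
    ∃ q : κ.ord.ToType → P, Antitone q ∧ (∀ α, q α ≤ p) ∧ ∀ α, q α ∈ D α

/-- COM has a winning strategy in `G(P, κ)`: a rule `σ` giving the move at stage `α` from the
earlier moves, such that at every even stage `α < κ` (limit stages are even), after a descending
sequence in which COM has followed `σ`, the move given by `σ` is legal -/
def StratClosed (κ : Cardinal.{u}) (P : Type u) [PartialOrder P] [OrderTop P] : Prop :=
  ∃ σ : (α : Ordinal.{u}) → (Iio α → P) → P, ∀ α < κ.ord, α % 2 = 0 → ∀ p : Iio α → P,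
    Antitone p → (∀ β : Iio α, β.1 % 2 = 0 → p β = σ β.1 fun γ => p ⟨γ.1, lt_trans (b := β.1) γ.2 β.2⟩) →
      (α = 0 → σ α p = ⊤) ∧ ∀ β, σ α p ≤ p β

section

variable {L : Type u} [LinearOrder L]

def EE (p q : Set L) : Prop := p ⊆ q ∧ ∀ x ∈ q, ∀ y ∈ p, x ≤ y → x ∈ p

def Good (T p : Set L) : Prop :=
  (∃ b, ∀ x ∈ p, x < b) ∧ ∀ δ ∈ T, ∃ y < δ, ∀ x ∈ p, x < δ → x ≤ y

def Cond (T : Set L) : Type u := {p : Set L // p = ∅ ∨ Good T p}

theorem EE.trans {p q r : Set L} (h : EE p q) (k : EE q r) : EE p r :=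
  ⟨h.1.trans k.1, fun x hx y hy hle => h.2 x (k.2 x hx y (h.1 hy) hle) y hy hle⟩

theorem EE.rfl {p : Set L} : EE p p := ⟨Subset.rfl, fun _ h _ _ _ => h⟩

instance (T : Set L) : PartialOrder (Cond T) where
  le q p := EE p.1 q.1
  le_refl _ := EE.rfl
  le_trans _ _ _ h k := k.trans h
  le_antisymm _ _ h k := Subtype.ext (Subset.antisymm k.1 h.1)

instance (T : Set L) : OrderTop (Cond T) where
  top := ⟨∅, Or.inl rfl⟩
  le_top _ := ⟨empty_subset _, fun _ _ _ h => h.elim⟩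

theorem EE.ins {p : Set L} {b : L} (h : ∀ x ∈ p, x < b) : EE p (insert b p) := by
  refine ⟨subset_insert _ _, ?_⟩
  rintro x (rfl | hx) y hy hle
  · exact absurd (h y hy) (not_lt.2 hle)
  · exact hx

theorem Good.ins [NoMaxOrder L] {T p : Set L} (h : Good T p) (b : L) : Good T (insert b p) := by
  obtain ⟨⟨c, hc⟩, h2⟩ := h
  obtain ⟨d, hd⟩ := exists_gt (max b c)
  refine ⟨⟨d, ?_⟩, fun δ hδ => ?_⟩
  · rintro x (rfl | hx)
    · exact (le_max_left _ _).trans_lt hd
    · exact ((hc x hx).trans_le (le_max_right _ _)).trans hd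
  · obtain ⟨y, hy, h3⟩ := h2 δ hδ
    by_cases hb : b < δ
    · refine ⟨max y b, max_lt hy hb, ?_⟩
      rintro x (rfl | hx) hx'
      · exact le_max_right _ _
      · exact (h3 x hx hx').trans (le_max_left _ _)
    · refine ⟨y, hy, ?_⟩
      rintro x (rfl | hx) hx'
      · exact absurd hx' hb
      · exact h3 x hx hx'

theorem good [Nonempty L] {T : Set L} (hT : ∀ δ ∈ T, ∃ y, y < δ) (p : Cond T) : Good T p.1 := by
  rcases p.2 with h | h
  · rw [h]
    refine ⟨⟨Classical.arbitrary L, fun _ h => h.elim⟩, fun δ hδ => ?_⟩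
    obtain ⟨y, hy⟩ := hT δ hδ
    exact ⟨y, hy, fun _ h => h.elim⟩
  · exact h

def Stat (T : Set L) : Prop :=
  ∀ g : List L → L, ∃ β : ℕ → L, StrictMono β ∧ (∀ k, g ((List.range k).map β) ≤ β k) ∧
    ∃ δ ∈ T, IsLUB (range β) δ

noncomputable def nat (β : Ordinal.{u}) : ℕ := Cardinal.toNat β.card

theorem nat_cast (n : ℕ) : nat (n : Ordinal.{u}) = n := by simp [nat]

theorem cast_nat {β : Ordinal.{u}} (h : β < Ordinal.omega0) : (nat β : Ordinal.{u}) = β := by
  obtain ⟨n, rfl⟩ := Ordinal.lt_omega0.1 h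
  rw [nat_cast]

theorem nat_lt {n : ℕ} (β : Iio (n : Ordinal.{u})) : nat β.1 < n := by
  have h : β.1 < n := β.2
  rwa [← cast_nat (h.trans (Ordinal.natCast_lt_omega0 n)), Nat.cast_lt] at h

noncomputable def play {P : Type u} (σ : (α : Ordinal.{u}) → (Iio α → P) → P) (inc : P → L → P)
    (γ : ℕ → L) : ℕ → P
  | n => if h : n % 2 = 0 then σ n fun β => play σ inc γ (nat β.1)
      else inc (play σ inc γ (n - 1)) (γ (n / 2))
termination_by n => n
decreasing_by
  · exact nat_lt β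
  · omega

omit [LinearOrder L] in
theorem play_congr {P : Type u} (σ : (α : Ordinal.{u}) → (Iio α → P) → P) (inc : P → L → P)
    {γ γ' : ℕ → L} {k : ℕ} (h : ∀ i < k, γ i = γ' i) (n : ℕ) :
    n ≤ 2 * k → play σ inc γ n = play σ inc γ' n := by
  induction n using Nat.strong_induction_on with
  | _ n ih =>
    intro hn
    rw [play.eq_1 σ inc γ n, play.eq_1 σ inc γ' n]
    split_ifs with h2
    · congr 1
      funext β
      exact ih _ (nat_lt β) ((nat_lt β).le.trans hn)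
    · rw [ih (n - 1) (by omega) (by omega), h _ (by omega)]

theorem mod_cast_two (n : ℕ) : ((n : Ordinal.{u}) % 2 = 0) ↔ n % 2 = 0 := by
  have : ((n : Ordinal.{u}) % 2) = ((n % 2 : ℕ) : Ordinal.{u}) := by
    rw [Ordinal.natCast_mod]
    rfl
  rw [this, Nat.cast_eq_zero]

theorem not_closed [Nonempty L] [NoMaxOrder L] {κ : Cardinal.{u}} (hκ : ℵ₀ < κ) {T : Set L}
    (hT : ∀ δ ∈ T, ∃ y, y < δ) (hS : Stat T) : ¬ StratClosed κ (Cond T) := by
  classical
  rintro ⟨σ, hσ⟩
  have hω : Ordinal.omega0 < κ.ord := by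
    rw [← Cardinal.ord_aleph0]
    exact Cardinal.ord_lt_ord.2 hκ
  have hex : ∀ (p : Cond T) (b : L), ∃ q : Cond T, q ≤ p ∧ ((∀ x ∈ p.1, x < b) → b ∈ q.1) := by
    intro p b
    by_cases h : ∀ x ∈ p.1, x < b
    · exact ⟨⟨insert b p.1, Or.inr ((good hT p).ins b)⟩, EE.ins h, fun _ => mem_insert _ _⟩
    · exact ⟨p, le_rfl, fun h' => absurd h' h⟩
  choose inc hinc hinc' using hex
  choose bd hbd using fun p : Cond T => (good hT p).1
  let d := Classical.arbitrary L
  obtain ⟨β, h1, h2, δ, hδ, h3⟩ :=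
    hS fun l => bd (play σ inc (fun i => l.getD i d) (2 * l.length))
  let p := play σ inc β
  have hfol : ∀ γ : Ordinal.{u}, γ < Ordinal.omega0 → γ % 2 = 0 →
      p (nat γ) = σ γ fun ε => p (nat ε.1) := by
    intro γ hγ he
    obtain ⟨n, rfl⟩ := Ordinal.lt_omega0.1 hγ
    rw [nat_cast]
    simp only [p]
    rw [play, dif_pos ((mod_cast_two n).1 he)]
  have hanti : ∀ n m k, k ≤ m → m ≤ n → p m ≤ p k := by
    intro n
    induction n with
    | zero =>
      intro m k h h'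
      obtain rfl : m = 0 := by omega
      obtain rfl : k = 0 := by omega
      exact le_rfl
    | succ n ih =>
      intro m k h h'
      rcases h'.eq_or_lt with rfl | h'
      · rcases h.eq_or_lt with rfl | h
        · exact le_rfl
        refine le_trans ?_ (ih n k (by omega) le_rfl)
        by_cases he : (n + 1) % 2 = 0
        · have he' := (mod_cast_two.{u} (n + 1)).2 he
          have hlt := Ordinal.natCast_lt_omega0.{u} (n + 1)
          have := (hσ _ (hlt.trans hω) he' (fun ε => p (nat ε.1)) (fun a b hab => by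
            refine ih _ _ ?_ (Nat.lt_succ_iff.1 (nat_lt b))
            have : a.1 ≤ b.1 := hab
            rwa [← cast_nat (lt_trans a.2 hlt), ← cast_nat (lt_trans b.2 hlt), Nat.cast_le] at this)
            (fun ε hε => hfol _ (lt_trans ε.2 hlt) hε)).2 ⟨n, mem_Iio.2 (Nat.cast_lt.2 n.lt_succ_self)⟩
          rw [← hfol _ hlt he'] at this
          simpa only [nat_cast] using this
        · simp only [p]
          rw [play, dif_neg he]
          exact hinc _ _
      · exact ih m k h (by omega)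
  have hmem : ∀ k, β k ∈ (p (2 * k + 1)).1 := by
    intro k
    have e : p (2 * k + 1) = inc (p (2 * k)) (β k) := by
      simp only [p]
      rw [play, dif_neg (by omega), Nat.add_sub_cancel, show (2 * k + 1) / 2 = k by omega]
    have e2 : play σ inc (fun i => ((List.range k).map β).getD i d) (2 * k) = p (2 * k) :=
      play_congr σ inc (k := k) (fun i hi => by simp [hi]) _ le_rfl
    have h4 := h2 k
    simp only [List.length_map, List.length_range] at h4
    rw [e2] at h4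
    rw [e]
    exact hinc' _ _ fun x hx => (hbd _ x hx).trans_le h4
  have he : Ordinal.omega0.{u} % 2 = 0 :=
    Ordinal.dvd_iff_mod_eq_zero.1 ⟨Ordinal.omega0, by
      exact (Ordinal.natCast_mul_omega0 (n := 2) (by norm_num)).symm⟩
  have := (hσ _ hω he (fun ε => p (nat ε.1)) (fun a b hab => by
      refine hanti _ _ _ ?_ le_rfl
      have : a.1 ≤ b.1 := hab
      rwa [← cast_nat a.2, ← cast_nat b.2, Nat.cast_le] at this)
      (fun ε hε => hfol _ ε.2 hε)).2
  obtain ⟨y, hy, h5⟩ := (good hT (σ Ordinal.omega0 fun ε => p (nat ε.1))).2 δ hδ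
  have hlt : ∀ k, β k < δ := fun k => (h1 k.lt_succ_self).trans_le (h3.1 ⟨_, rfl⟩)
  refine absurd (h3.2 ?_) (not_le.2 hy)
  rintro _ ⟨k, rfl⟩
  refine h5 _ ((this ⟨(2 * k + 1 : ℕ), Ordinal.natCast_lt_omega0 _⟩).1 ?_) (hlt k)
  simpa only [nat_cast] using hmem k

theorem exists_lub [WellFoundedLT L] {s : Set L} {b : L} (h : b ∈ upperBounds s) :
    ∃ δ, IsLUB s δ := by
  obtain ⟨δ, h1, h2⟩ := wellFounded_lt.has_min (upperBounds s) ⟨b, h⟩
  exact ⟨δ, h1, fun y hy => not_lt.1 (h2 y hy)⟩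

theorem split [WellFoundedLT L] [Nonempty L] {μ : Cardinal.{u}} (hμ : ℵ₀ ≤ μ)
    (hb : ∀ ι : Type u, #ι ≤ μ → ∀ f : ι → L, ∃ b, ∀ i, f i < b) (hs : ∀ b : L, #(Iic b) ≤ μ) :
    ∃ (S : Set L) (T : L → Set L), μ < #S ∧ (∀ η ∈ S, Stat (T η)) ∧
      (∀ η δ, δ ∈ T η → ∃ y, y < δ) ∧ ∀ η η' δ, δ ∈ T η → δ ∈ T η' → η = η' := by
  have hc : ∀ δ : L, ∃ c : ℕ → L, (∃ β : ℕ → L, (∀ k, β k < δ) ∧ IsLUB (range β) δ) →
      (∀ k, c k < δ) ∧ IsLUB (range c) δ := by
    intro δ
    by_cases h : ∃ β : ℕ → L, (∀ k, β k < δ) ∧ IsLUB (range β) δ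
    · exact ⟨h.choose, fun _ => h.choose_spec⟩
    · exact ⟨fun _ => δ, fun h' => absurd h' h⟩
  choose c hc using hc
  let T : ℕ → L → Set L := fun n η => {δ | η < δ ∧ c δ n = η}
  suffices h : ∃ n, μ < #{η | Stat (T n η)} by
    obtain ⟨n, h⟩ := h
    exact ⟨_, T n, h, fun _ h => h, fun η δ h => ⟨η, h.1⟩, fun η η' δ h h' => h.2.symm.trans h'.2⟩
  by_contra hn
  push Not at hn
  choose ξ hξ using fun n => hb _ (hn n) Subtype.val
  have hN : #(ULift.{u} ℕ) ≤ μ := by simpa using hμ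
  obtain ⟨x, hx⟩ := hb _ hN fun n => ξ n.down
  have hg : ∀ n η, ∃ g : List L → L, x < η → ∀ β : ℕ → L, StrictMono β →
      (∀ k, g ((List.range k).map β) ≤ β k) → ∀ δ ∈ T n η, ¬ IsLUB (range β) δ := by
    intro n η
    by_cases h : Stat (T n η)
    · exact ⟨fun _ => x, fun h' => absurd ((hξ n ⟨η, h⟩).trans (hx ⟨n⟩)) h'.le.not_gt⟩
    · simp only [Stat] at h
      push Not at h
      obtain ⟨g, h⟩ := h
      exact ⟨g, fun _ => h⟩
  choose g hg using hg
  have hG : ∀ b : L, ∃ G, b < G ∧ ∀ n η, η ≤ b → ∀ l : List L, (∀ y ∈ l, y ≤ b) → g n η l < G := by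
    intro b
    obtain ⟨G, hG⟩ := hb (Option (ULift.{u} ℕ × Iic b × List (Iic b))) (by
        rw [mk_option, mk_prod, mk_prod, lift_id, lift_id, lift_id, lift_id]
        exact add_le_of_le hμ (mul_le_of_le hμ hN (mul_le_of_le hμ (hs b)
          ((mk_list_le_max _).trans (max_le hμ (hs b))))) (one_le_aleph0.trans hμ))
      fun o => o.elim b fun t => g t.1.down t.2.1.1 (t.2.2.map Subtype.val)
    refine ⟨G, hG none, fun n η hη l hl => ?_⟩
    have := hG (some (⟨n⟩, ⟨η, hη⟩, l.map fun y => ⟨min y b, min_le_right _ _⟩))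
    simp only [Option.elim, List.map_map] at this
    have e : l.map (Subtype.val ∘ fun y => (⟨min y b, min_le_right _ _⟩ : Iic b)) = l.map id :=
      List.map_congr_left fun y hy => min_eq_left (hl y hy)
    exact (List.map_id l ▸ e) ▸ this
  choose G hG1 hG2 using hG
  let β : ℕ → L := fun k => G^[k] x
  have hβ : ∀ k, β (k + 1) = G (β k) := fun k => Function.iterate_succ_apply' G k x
  have hm : StrictMono β := strictMono_nat_of_lt_succ fun k => hβ k ▸ hG1 _
  obtain ⟨b, hb'⟩ := hb _ hN fun n => β n.down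
  obtain ⟨δ, hδ⟩ := exists_lub (s := range β) (b := b) (by
    rintro _ ⟨k, rfl⟩
    exact (hb' ⟨k⟩).le)
  have hlt : ∀ k, β k < δ := fun k => (hm k.lt_succ_self).trans_le (hδ.1 ⟨_, rfl⟩)
  obtain ⟨c1, c2⟩ := hc δ ⟨β, hlt, hδ⟩
  obtain ⟨_, ⟨n, rfl⟩, hn', -⟩ := c2.exists_between (hlt 0)
  obtain ⟨_, ⟨m, rfl⟩, hm', -⟩ := hδ.exists_between (c1 n)
  refine hg n _ hn' (fun k => β (m + k + 1)) (fun a b h => hm (by omega)) (fun k => ?_) δ
    ⟨c1 n, rfl⟩ ⟨?_, fun y hy => hδ.2 ?_⟩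
  · rw [hβ]
    refine (hG2 _ _ _ (hm'.le.trans (hm.monotone (by omega))) _ fun y hy => ?_).le
    obtain ⟨i, hi, rfl⟩ := List.mem_map.1 hy
    have := List.mem_range.1 hi
    exact hm.monotone (by omega)
  · rintro _ ⟨k, rfl⟩
    exact (hlt _).le
  · rintro _ ⟨k, rfl⟩
    exact (hm.monotone (by omega)).trans (hy ⟨k, rfl⟩)

theorem distrib [WellFoundedLT L] [Nonempty L] [NoMaxOrder L] {κ : Cardinal.{u}} {J : Type u}
    (hJ : κ < #J) (hb : ∀ ι : Type u, #ι ≤ #J → ∀ f : ι → L, ∃ b, ∀ i, f i < b)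
    (T : J → Set L) (hT : ∀ j δ, δ ∈ T j → ∃ y, y < δ)
    (hd : ∀ j j' δ, δ ∈ T j → δ ∈ T j' → j = j') : ∃ j, StronglyDistrib κ (Cond (T j)) := by
  by_contra hn
  simp only [StronglyDistrib] at hn
  push Not at hn
  choose D hD p hp using hn
  have he : ∀ j α (s : Set L), ∃ t : Cond (T j), ∀ h : Good (T j) s, t ∈ D j α ∧ EE s t.1 := by
    intro j α s
    by_cases h : Good (T j) s
    · obtain ⟨q, h1, h2⟩ := (hD j α).2 ⟨s, Or.inr h⟩
      exact ⟨q, fun _ => ⟨h1, h2⟩⟩
    · exact ⟨⊤, fun h' => absurd h' h⟩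
  choose ex hex using he
  have hB : ∀ t : (j : J) → Cond (T j), ∃ b, ∀ j, ∀ x ∈ (t j).1, x < b := by
    intro t
    choose b h using fun j => (good (hT j) (t j)).1
    obtain ⟨c, hc⟩ := hb J le_rfl b
    exact ⟨c, fun j x hx => (h j x hx).trans (hc j)⟩
  choose B hB using hB
  let K := κ.ord.ToType
  let E : K → (j : J) → Cond (T j) := wellFounded_lt.fix fun α F j =>
    ex j α ((p j).1 ∪ ⋃ γ : Iio α, insert (B (F γ.1 γ.2)) (F γ.1 γ.2 j).1)
  have hE : ∀ α j, E α j = ex j α ((p j).1 ∪ ⋃ γ : Iio α, insert (B (E γ.1)) (E γ.1 j).1) := by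
    intro α j
    simp only [E]
    rw [WellFounded.fix_eq]
  have hK : #K = κ := mk_ord_toType κ
  obtain ⟨j, hj⟩ : ∃ j, ∀ α, ∀ δ ∈ T j, ¬ IsLUB (range fun γ : Iio α => B (E γ.1)) δ := by
    by_contra h
    push Not at h
    choose a δ h1 h2 using h
    refine absurd (mk_le_of_injective (f := a) fun i j h => hd i j (δ i) (h1 i) ?_)
      (not_le.2 (hK ▸ hJ))
    rw [(h2 i).unique (h ▸ h2 j)]
    exact h1 j
  let F : K → Cond (T j) := fun α => ⟨insert (B (E α)) (E α j).1, Or.inr ((good (hT j) _).ins _)⟩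
  let V : K → Set L := fun α => (p j).1 ∪ ⋃ γ : Iio α, (F γ.1).1
  have hF : ∀ α, F α ≤ E α j := fun α => EE.ins (hB _ j)
  have key : ∀ α, F α ∈ D j α ∧ F α ≤ p j ∧ ∀ γ < α, F α ≤ F γ := by
    intro α
    induction α using WellFoundedLT.induction with
    | _ α ih =>
      have a1 : EE (p j).1 (V α) := by
        refine ⟨subset_union_left, fun x hx y hy hle => hx.elim id fun hx => ?_⟩
        obtain ⟨γ, hx⟩ := mem_iUnion.1 hx
        exact (ih γ.1 γ.2).2.1.2 x hx y hy hle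
      have a2 : ∀ γ < α, EE (F γ).1 (V α) := by
        intro γ hγ
        refine ⟨fun x hx => Or.inr (mem_iUnion.2 ⟨⟨γ, hγ⟩, hx⟩), fun x hx y hy hle => ?_⟩
        rcases hx with hx | hx
        · exact (ih γ hγ).2.1.1 hx
        · obtain ⟨ε, hx⟩ := mem_iUnion.1 hx
          rcases lt_trichotomy ε.1 γ with h | h | h
          · exact ((ih γ hγ).2.2 _ h).1 hx
          · exact h ▸ hx
          · exact ((ih ε.1 ε.2).2.2 _ h).2 x hx y hy hle
      have a3 : ∀ γ, ∀ x ∈ (F γ).1, x ≤ B (E γ) := by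
        rintro γ x (rfl | hx)
        · exact le_rfl
        · exact (hB _ j x hx).le
      have a4 : Good (T j) (V α) := by
        obtain ⟨⟨b, h1⟩, h2⟩ := good (hT j) (p j)
        obtain ⟨c, hc⟩ := hb K (hK ▸ hJ.le) fun γ => B (E γ)
        refine ⟨⟨max b c, fun x hx => hx.elim (fun hx => lt_max_of_lt_left (h1 x hx)) fun hx => ?_⟩,
          fun δ hδ => ?_⟩
        · obtain ⟨γ, hx⟩ := mem_iUnion.1 hx
          exact lt_max_of_lt_right ((a3 _ x hx).trans_lt (hc _))
        by_cases h : ∃ γ < α, δ ≤ B (E γ)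
        · obtain ⟨γ, h3, h4⟩ := h
          obtain ⟨y, hy, h5⟩ := (good (hT j) (F γ)).2 δ hδ
          exact ⟨y, hy, fun x hx hx' =>
            h5 x ((a2 γ h3).2 x hx _ (mem_insert _ _) (hx'.le.trans h4)) hx'⟩
        · push Not at h
          obtain ⟨y, hy, h5⟩ := h2 δ hδ
          obtain ⟨z, hz, h6⟩ : ∃ z < δ, ∀ γ < α, B (E γ) ≤ z := by
            by_contra h7
            push Not at h7
            refine hj α δ hδ ⟨?_, fun z hz => not_lt.1 fun h8 => ?_⟩
            · rintro _ ⟨γ, rfl⟩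
              exact (h γ.1 γ.2).le
            · obtain ⟨γ, h9, h10⟩ := h7 z h8
              exact absurd (hz ⟨⟨γ, h9⟩, rfl⟩) (not_le.2 h10)
          refine ⟨max y z, max_lt hy hz, fun x hx hx' =>
            hx.elim (fun hx => le_max_of_le_left (h5 x hx hx')) fun hx => ?_⟩
          obtain ⟨γ, hx⟩ := mem_iUnion.1 hx
          exact le_max_of_le_right ((a3 _ x hx).trans (h6 γ.1 γ.2))
      obtain ⟨b1, b2⟩ := hex j α (V α) a4
      have e : ex j α (V α) = E α j := (hE α j).symm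
      rw [e] at b1 b2
      exact ⟨(hD j α).1 (hF α) b1, (a1.trans b2).trans (hF α),
        fun γ hγ => ((a2 γ hγ).trans b2).trans (hF α)⟩
  obtain ⟨α, hα⟩ := hp j F (fun a b h => by
    rcases h.eq_or_lt with rfl | h
    · exact le_rfl
    · exact (key b).2.2 a h) fun α => (key α).2.1
  exact hα (key α).1

end

theorem result (κ : Cardinal.{u}) (hκ : ℵ₀ < κ) :
    ∃ (P : Type u) (_ : PartialOrder P) (_ : OrderTop P),
      StronglyDistrib κ P ∧ ¬ StratClosed κ P := by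
  let μ := Order.succ κ
  have hμ : ℵ₀ ≤ μ := hκ.le.trans (Order.le_succ κ)
  let L := (Order.succ μ).ord.ToType
  have hL : #L = Order.succ μ := mk_ord_toType _
  have hr : (Order.succ μ).IsRegular := isRegular_succ hμ
  have : Nonempty L := mk_ne_zero_iff.1 (hL ▸ hr.pos.ne')
  have : NoMaxOrder L := noMaxOrder hr.aleph0_le
  have hs : ∀ b : L, #(Iic b) ≤ μ := fun b => by
    rw [← Iio_insert]
    exact (mk_insert_le).trans (add_le_of_le hμ
      (Order.lt_succ_iff.1 (mk_Iio_ord_toType b)) (one_le_aleph0.trans hμ))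
  have hb : ∀ ι : Type u, #ι ≤ μ → ∀ f : ι → L, ∃ b, ∀ i, f i < b := by
    intro ι hι f
    by_contra h
    push Not at h
    have h1 : #L ≤ #(Σ i : ι, Iic (f i)) := by
      choose g hg using h
      exact mk_le_of_injective (f := fun b => ⟨g b, b, hg b⟩) fun a b h =>
        congrArg (fun t : Σ i : ι, Iic (f i) => t.2.1) h
    rw [hL, mk_sigma] at h1
    exact absurd (h1.trans ((sum_le_sum _ (fun _ => μ) fun i => hs _).trans (by
      rw [sum_const']
      exact mul_le_of_le hμ hι le_rfl))) (not_le.2 (Order.lt_succ μ))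
  obtain ⟨S, T, h1, h2, h3, h4⟩ := split hμ hb hs
  obtain ⟨J, hJS, hJ⟩ := le_mk_iff_exists_subset.1 h1.le
  obtain ⟨j, hj⟩ := distrib (κ := κ) (J := J) (hJ ▸ Order.lt_succ κ) (fun ι h => hb ι (h.trans hJ.le)) (fun j => T j.1)
    (fun j => h3 j.1) fun j j' δ h h' => Subtype.ext (h4 _ _ δ h h')
  exact ⟨Cond (T j.1), inferInstance, inferInstance, hj,
    not_closed hκ (h3 j.1) (h2 j.1 (hJS j.2))⟩

end Pool.Agent.Results.MP_77bbd4_lc.Undetermined
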